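import Pool.Agent.TH290.LV.Core

set_option autoImplicit false

/-!
# The chains below and above the `j`-th level, all at once
-/

open Finset

namespace Pool.Agent.TH290.LV

theorem sw {α : Type*} {A B : Finset α} {f g φ : α → α}
    (hf : ∀ a ∈ A, a ∉ B → f a ∈ B ∧ f a ∉ A ∧ g (f a) = a)
    (hg : ∀ b ∈ B, b ∉ A → g b ∈ A ∧ g b ∉ B ∧ f (g b) = b)
    (h1 : ∀ a, a ∈ B → φ a = a) (h2 : ∀ a, a ∉ B → φ a = f a) :
    (∀ a ∈ A, φ a ∈ B) ∧ (∀ b ∈ B, ∃ a ∈ A, φ a = b) ∧
    (∀ a ∈ A, ∀ b ∈ A, φ a = φ b → a = b) := by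
  refine ⟨?_, ?_, ?_⟩
  · intro a ha
    by_cases h : a ∈ B
    · rwa [h1 a h]
    · rw [h2 a h]
      exact (hf a ha h).1
  · intro b hb
    by_cases h : b ∈ A
    · exact ⟨b, h, h1 b hb⟩
    · obtain ⟨h3, h4, h5⟩ := hg b hb h
      exact ⟨g b, h3, by rw [h2 _ h4, h5]⟩
  · intro a ha b hb h
    by_cases ha' : a ∈ B <;> by_cases hb' : b ∈ B
    · rwa [h1 a ha', h1 b hb'] at h
    · rw [h1 a ha', h2 b hb'] at h
      have := (hf b hb hb').2.1
      rw [← h] at this
      exact absurd ha this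
    · rw [h2 a ha', h1 b hb'] at h
      have := (hf a ha ha').2.1
      rw [h] at this
      exact absurd hb this
    · rw [h2 a ha', h2 b hb'] at h
      rw [← (hf a ha ha').2.2, h, (hf b hb hb').2.2]

open scoped Classical in
/-- the chains just after `y`; `N` exchanges have been made so far -/
structure St (Γ : Finset (ℝ × ℝ)) (C : ℝ × ℝ → Prop) (j n' : ℕ) (y : ℝ) (N : ℕ) where
  σ : Fin j → ℝ × ℝ
  T : Fin j → Finset (ℝ × ℝ)
  τ : Fin n' → ℝ × ℝ
  U : Fin n' → Finset (ℝ × ℝ)
  σinj : Function.Injective σ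
  σmem : ∀ l, l ∈ Sp Γ j y ↔ ∃ i, σ i = l
  τinj : Function.Injective τ
  τmem : ∀ l, (l ∈ Γ ∧ l ∉ Sp Γ j y) ↔ ∃ i, τ i = l
  Tsub : ∀ i, T i ⊆ Γ
  Tinv : ∀ i, Inv (T i) (σ i) y
  Usub : ∀ i, U i ⊆ Γ
  Uinv : ∀ i, Inv ((U i).image rf) (rf (τ i)) y
  c1 : N + j ≤ ∑ i, (T i).card
  c2 : N ≤ ∑ i, (((T i).filter C).card + (((T i).erase (σ i)).filter C).card) +
    ∑ i, ((U i).filter (fun l => ¬ C l)).card
  c3 : N + n' ≤ ∑ i, (U i).card

open scoped Classical in
theorem base (Γ : Finset (ℝ × ℝ)) (C : ℝ × ℝ → Prop) (j n' : ℕ) (hn : j + n' = Γ.card) (y : ℝ) :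
    Nonempty (St Γ C j n' y 0) := by
  have h1 : (Sp Γ j y).card = j := by
    rw [card_Sp]
    omega
  have h2 : (Γ \ Sp Γ j y).card = n' := by
    rw [card_sdiff_of_subset (Sp_sub _ _ _), h1]
    omega
  refine ⟨{ σ := fun i => ((Sp Γ j y).equivFinOfCardEq h1).symm i, T := fun i => {(((Sp Γ j y).equivFinOfCardEq h1).symm i : ℝ × ℝ)},
            τ := fun i => ((Γ \ Sp Γ j y).equivFinOfCardEq h2).symm i, U := fun i => {(((Γ \ Sp Γ j y).equivFinOfCardEq h2).symm i : ℝ × ℝ)},
            σinj := ?_, σmem := ?_, τinj := ?_, τmem := ?_, Tsub := ?_, Tinv := ?_, Usub := ?_,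
            Uinv := ?_, c1 := ?_, c2 := ?_, c3 := ?_ }⟩
  · intro a b h
    exact ((Sp Γ j y).equivFinOfCardEq h1).symm.injective (Subtype.ext h)
  · intro l
    constructor
    · intro hl
      exact ⟨(Sp Γ j y).equivFinOfCardEq h1 ⟨l, hl⟩, by simp⟩
    · rintro ⟨i, rfl⟩
      exact (((Sp Γ j y).equivFinOfCardEq h1).symm i).2
  · intro a b h
    exact ((Γ \ Sp Γ j y).equivFinOfCardEq h2).symm.injective (Subtype.ext h)
  · intro l
    constructor
    · intro hl
      exact ⟨(Γ \ Sp Γ j y).equivFinOfCardEq h2 ⟨l, mem_sdiff.mpr hl⟩, by simp⟩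
    · rintro ⟨i, rfl⟩
      exact mem_sdiff.mp (((Γ \ Sp Γ j y).equivFinOfCardEq h2).symm i).2
  · intro i
    rw [singleton_subset_iff]
    exact Sp_sub _ _ _ (((Sp Γ j y).equivFinOfCardEq h1).symm i).2
  · intro i
    exact Inv.base _ _
  · intro i
    rw [singleton_subset_iff]
    exact (mem_sdiff.mp (((Γ \ Sp Γ j y).equivFinOfCardEq h2).symm i).2).1
  · intro i
    rw [image_singleton]
    exact Inv.base _ _
  · simp
  · exact Nat.zero_le _
  · simp

theorem move {Γ : Finset (ℝ × ℝ)} {X : Finset ℝ} (hX : Cr Γ X) {C : ℝ × ℝ → Prop} {j n' : ℕ}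
    {y y' : ℝ} {N : ℕ} (S : St Γ C j n' y N) (hy : y ≤ y')
    (hno : ∀ z ∈ X, ¬ (y < z ∧ z ≤ y')) : Nonempty (St Γ C j n' y' N) := by
  have h := Sp_const hX hy hno j
  exact ⟨{ σ := S.σ, T := S.T, τ := S.τ, U := S.U, σinj := S.σinj, σmem := h ▸ S.σmem,
           τinj := S.τinj, τmem := h ▸ S.τmem, Tsub := S.Tsub,
           Tinv := fun i => (S.Tinv i).mono hy, Usub := S.Usub,
           Uinv := fun i => (S.Uinv i).mono hy, c1 := S.c1, c2 := S.c2, c3 := S.c3 }⟩

open scoped Classical in
theorem step {Γ : Finset (ℝ × ℝ)} {X : Finset ℝ} (hX : Cr Γ X) {C : ℝ × ℝ → Prop} {j n' : ℕ}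
    {y y' : ℝ} {N : ℕ} (S : St Γ C j n' y N) (hy : y < y')
    (hno : ∀ z ∈ X, ¬ (y < z ∧ z < y')) :
    Nonempty (St Γ C j n' y' (N + if Sm Γ j y' = Sp Γ j y' then 0 else 1)) := by
  have hS : Sp Γ j y = Sm Γ j y' := Sp_eq_Sm hX hy hno j
  set A := Sm Γ j y' with hA
  set B := Sp Γ j y' with hB
  have hAΓ : A ⊆ Γ := Sm_sub _ _ _
  have hBΓ : B ⊆ Γ := Sp_sub _ _ _
  have hcard : A.card = B.card := by rw [hA, hB, card_Sm, card_Sp]
  have hcard2 : (A \ B).card = (B \ A).card := by
    have h1 := card_sdiff_add_card_inter A B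
    have h2 := card_sdiff_add_card_inter B A
    rw [inter_comm B A] at h2
    omega
  set e := equivOfCardEq hcard2 with he
  set f : ℝ × ℝ → ℝ × ℝ := fun a => if h : a ∈ A \ B then (e ⟨a, h⟩ : ℝ × ℝ) else a with hfdef
  set g : ℝ × ℝ → ℝ × ℝ := fun b => if h : b ∈ B \ A then (e.symm ⟨b, h⟩ : ℝ × ℝ) else b
    with hgdef
  have hf : ∀ a ∈ A, a ∉ B → f a ∈ B ∧ f a ∉ A ∧ g (f a) = a := by
    intro a ha hb
    have h : a ∈ A \ B := mem_sdiff.mpr ⟨ha, hb⟩
    have hfa : f a = e ⟨a, h⟩ := by rw [hfdef]; simp only [dif_pos h]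
    have h2 := mem_sdiff.mp (e ⟨a, h⟩).2
    rw [hfa]
    refine ⟨h2.1, h2.2, ?_⟩
    rw [hgdef]
    simp
  have hg : ∀ b ∈ B, b ∉ A → g b ∈ A ∧ g b ∉ B ∧ f (g b) = b := by
    intro b hb ha
    have h : b ∈ B \ A := mem_sdiff.mpr ⟨hb, ha⟩
    have hgb : g b = e.symm ⟨b, h⟩ := by rw [hgdef]; simp only [dif_pos h]
    have h2 := mem_sdiff.mp (e.symm ⟨b, h⟩).2
    rw [hgb]
    refine ⟨h2.1, h2.2, ?_⟩
    rw [hfdef]
    simp
  clear_value f g
  have hex : ∀ a ∈ A, a ∉ B → ht a y' = ht (f a) y' ∧ (f a).1 < a.1 := by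
    intro a ha hb
    obtain ⟨h1, h2, _⟩ := hf a ha hb
    exact exch ha hb h1 h2
  have hex' : ∀ b ∈ B, b ∉ A → ht b y' = ht (g b) y' ∧ b.1 < (g b).1 := by
    intro b hb ha
    obtain ⟨h1, h2, h3⟩ := hg b hb ha
    have := hex (g b) h1 h2
    rw [h3] at this
    exact ⟨this.1.symm, this.2⟩
  set φ : ℝ × ℝ → ℝ × ℝ := fun a => if a ∈ B then a else f a with hφ
  obtain ⟨sw1, sw2, sw3⟩ := sw (φ := φ) hf hg (fun a ha => by simp only [hφ, if_pos ha])
    (fun a ha => by simp only [hφ, if_neg ha])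
  have hf' : ∀ a ∈ Γ \ A, a ∉ Γ \ B → g a ∈ Γ \ B ∧ g a ∉ Γ \ A ∧ f (g a) = a := by
    intro a ha hb
    rw [mem_sdiff] at ha
    have hb' : a ∈ B := by
      by_contra h
      exact hb (mem_sdiff.mpr ⟨ha.1, h⟩)
    obtain ⟨h1, h2, h3⟩ := hg a hb' ha.2
    exact ⟨mem_sdiff.mpr ⟨hAΓ h1, h2⟩, fun h => (mem_sdiff.mp h).2 h1, h3⟩
  have hg' : ∀ b ∈ Γ \ B, b ∉ Γ \ A → f b ∈ Γ \ A ∧ f b ∉ Γ \ B ∧ g (f b) = b := by
    intro b hb ha
    rw [mem_sdiff] at hb
    have ha' : b ∈ A := by
      by_contra h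
      exact ha (mem_sdiff.mpr ⟨hb.1, h⟩)
    obtain ⟨h1, h2, h3⟩ := hf b ha' hb.2
    exact ⟨mem_sdiff.mpr ⟨hBΓ h1, h2⟩, fun h => (mem_sdiff.mp h).2 h1, h3⟩
  set ψ : ℝ × ℝ → ℝ × ℝ := fun a => if a ∈ Γ \ B then a else g a with hψ
  obtain ⟨sw1', sw2', sw3'⟩ := sw (φ := ψ) hf' hg' (fun a ha => by simp only [hψ, if_pos ha])
    (fun a ha => by simp only [hψ, if_neg ha])
  have hσA : ∀ i, S.σ i ∈ A := by
    intro i
    rw [← hS]
    exact (S.σmem _).mpr ⟨i, rfl⟩
  have hτA : ∀ i, S.τ i ∈ Γ ∧ S.τ i ∉ A := by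
    intro i
    rw [← hS]
    exact (S.τmem _).mpr ⟨i, rfl⟩
  set σ' : Fin j → ℝ × ℝ := fun i => if S.σ i ∈ B then S.σ i else f (S.σ i) with hσ'
  set T' : Fin j → Finset (ℝ × ℝ) := fun i =>
    if S.σ i ∈ B then S.T i else insert (f (S.σ i)) (S.T i) with hT'
  set τ' : Fin n' → ℝ × ℝ := fun i => if S.τ i ∈ Γ \ B then S.τ i else g (S.τ i) with hτ'
  set U' : Fin n' → Finset (ℝ × ℝ) := fun i =>
    if S.τ i ∈ Γ \ B then S.U i else insert (g (S.τ i)) (S.U i) with hU'
  have hTT : ∀ i, S.T i ⊆ T' i := by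
    intro i
    simp only [hT']
    split_ifs
    · exact subset_rfl
    · exact subset_insert _ _
  have hUU : ∀ i, S.U i ⊆ U' i := by
    intro i
    simp only [hU']
    split_ifs
    · exact subset_rfl
    · exact subset_insert _ _
  have hTnm : ∀ i, S.σ i ∉ B → f (S.σ i) ∉ S.T i := by
    intro i hi
    exact (S.Tinv i).notMem (hex _ (hσA i) hi).2
  have hUnm : ∀ i, S.τ i ∉ Γ \ B → g (S.τ i) ∉ S.U i := by
    intro i hi h
    have hb : S.τ i ∈ B := by
      by_contra hb
      exact hi (mem_sdiff.mpr ⟨(hτA i).1, hb⟩)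
    have h1 := (hex' _ hb (hτA i).2).2
    refine (S.Uinv i).notMem (m := rf (g (S.τ i))) ?_ (mem_image_of_mem _ h)
    simp only [rf]
    linarith
  have hw : ∀ i, ((S.T i).filter C).card + (((S.T i).erase (S.σ i)).filter C).card ≤
      ((T' i).filter C).card + (((T' i).erase (σ' i)).filter C).card := by
    intro i
    apply Nat.add_le_add
    · exact card_le_card (filter_subset_filter _ (hTT i))
    · apply card_le_card (filter_subset_filter _ _)
      simp only [hT', hσ']
      split_ifs with h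
      · exact subset_rfl
      · rw [erase_insert (hTnm i h)]
        exact erase_subset _ _
  have hd : ∀ i, ((S.U i).filter (fun l => ¬ C l)).card ≤
      ((U' i).filter (fun l => ¬ C l)).card := fun i =>
    card_le_card (filter_subset_filter _ (hUU i))
  refine ⟨{ σ := σ', T := T', τ := τ', U := U', σinj := ?_, σmem := ?_, τinj := ?_, τmem := ?_,
            Tsub := ?_, Tinv := ?_, Usub := ?_, Uinv := ?_, c1 := ?_, c2 := ?_, c3 := ?_ }⟩
  · intro a b h
    exact S.σinj (sw3 _ (hσA a) _ (hσA b) h)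
  · intro l
    rw [← hB]
    constructor
    · intro hl
      obtain ⟨a, ha, h⟩ := sw2 l hl
      rw [← hS] at ha
      obtain ⟨i, rfl⟩ := (S.σmem a).mp ha
      exact ⟨i, h⟩
    · rintro ⟨i, rfl⟩
      exact sw1 _ (hσA i)
  · intro a b h
    exact S.τinj (sw3' _ (mem_sdiff.mpr (hτA a)) _ (mem_sdiff.mpr (hτA b)) h)
  · intro l
    rw [← hB, ← mem_sdiff]
    constructor
    · intro hl
      obtain ⟨a, ha, h⟩ := sw2' l hl
      rw [mem_sdiff, ← hS] at ha
      obtain ⟨i, rfl⟩ := (S.τmem a).mp ha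
      exact ⟨i, h⟩
    · rintro ⟨i, rfl⟩
      exact sw1' _ (mem_sdiff.mpr (hτA i))
  · intro i
    simp only [hT']
    split_ifs with h
    · exact S.Tsub i
    · exact insert_subset (hBΓ (hf _ (hσA i) h).1) (S.Tsub i)
  · intro i
    simp only [hT', hσ']
    split_ifs with h
    · exact (S.Tinv i).mono hy.le
    · exact (S.Tinv i).step hy (hex _ (hσA i) h).1 (hex _ (hσA i) h).2
  · intro i
    simp only [hU']
    split_ifs with h
    · exact S.Usub i
    · refine insert_subset ?_ (S.Usub i)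
      exact (mem_sdiff.mp (hf' _ (mem_sdiff.mpr (hτA i)) h).1).1
  · intro i
    simp only [hU', hτ']
    split_ifs with h
    · exact (S.Uinv i).mono hy.le
    · have hb : S.τ i ∈ B := by
        by_contra hb
        exact h (mem_sdiff.mpr ⟨(hτA i).1, hb⟩)
      obtain ⟨h1, h2⟩ := hex' _ hb (hτA i).2
      rw [image_insert]
      apply (S.Uinv i).step hy
      · rw [ht_rf, ht_rf, h1]
      · simp only [rf]
        linarith
  · by_cases hAB : A = B
    · rw [if_pos hAB, add_zero]
      exact S.c1.trans (sum_le_sum (fun i _ => card_le_card (hTT i)))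
    · rw [if_neg hAB]
      have hne : (A \ B).Nonempty := by
        rw [sdiff_nonempty]
        intro h
        exact hAB (eq_of_subset_of_card_le h hcard.ge)
      obtain ⟨a, ha⟩ := hne
      rw [mem_sdiff] at ha
      obtain ⟨i, hi⟩ := (S.σmem a).mp (hS ▸ ha.1)
      have hlt : ∑ i, (S.T i).card < ∑ i, (T' i).card := by
        apply sum_lt_sum (fun i _ => card_le_card (hTT i))
        refine ⟨i, mem_univ _, ?_⟩
        have hib : S.σ i ∉ B := hi ▸ ha.2
        simp only [hT', if_neg hib]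
        rw [card_insert_of_notMem (hTnm i hib)]
        exact Nat.lt_succ_self _
      have := S.c1
      omega
  · by_cases hAB : A = B
    · rw [if_pos hAB, add_zero]
      exact S.c2.trans (Nat.add_le_add (sum_le_sum (fun i _ => hw i))
        (sum_le_sum (fun i _ => hd i)))
    · rw [if_neg hAB]
      have hne : (A \ B).Nonempty := by
        rw [sdiff_nonempty]
        intro h
        exact hAB (eq_of_subset_of_card_le h hcard.ge)
      obtain ⟨a, ha⟩ := hne
      rw [mem_sdiff] at ha
      obtain ⟨i, hi⟩ := (S.σmem a).mp (hS ▸ ha.1)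
      have hib : S.σ i ∉ B := hi ▸ ha.2
      have hsw := sum_le_sum (s := (univ : Finset (Fin j))) (fun i _ => hw i)
      have hsd := sum_le_sum (s := (univ : Finset (Fin n'))) (fun i _ => hd i)
      have hc2 := S.c2
      by_cases hC1 : C (f a)
      · have hlt : ∑ i, (((S.T i).filter C).card + (((S.T i).erase (S.σ i)).filter C).card) <
            ∑ i, (((T' i).filter C).card + (((T' i).erase (σ' i)).filter C).card) := by
          apply sum_lt_sum (fun i _ => hw i)
          refine ⟨i, mem_univ _, ?_⟩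
          simp only [hT', hσ', if_neg hib, erase_insert (hTnm i hib)]
          rw [hi]
          rw [filter_insert, if_pos hC1, card_insert_of_notMem (by
            rw [mem_filter]
            intro h
            rw [hi] at hib
            have := hTnm i (hi ▸ hib)
            rw [hi] at this
            exact this h.1)]
          have : (((S.T i).erase a).filter C).card ≤ ((S.T i).filter C).card :=
            card_le_card (filter_subset_filter _ (erase_subset _ _))
          omega
        omega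
      · by_cases hC2 : C a
        · have hlt : ∑ i, (((S.T i).filter C).card + (((S.T i).erase (S.σ i)).filter C).card) <
              ∑ i, (((T' i).filter C).card + (((T' i).erase (σ' i)).filter C).card) := by
            apply sum_lt_sum (fun i _ => hw i)
            refine ⟨i, mem_univ _, ?_⟩
            have haT : a ∈ S.T i := hi ▸ (S.Tinv i).1
            have h1 : ((S.T i).filter C).card ≤ ((T' i).filter C).card :=
              card_le_card (filter_subset_filter _ (hTT i))
            have h2 : (((S.T i).erase (S.σ i)).filter C).card <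
                (((T' i).erase (σ' i)).filter C).card := by
              simp only [hT', hσ', if_neg hib, erase_insert (hTnm i hib)]
              apply card_lt_card
              rw [hi]
              refine ⟨filter_subset_filter _ (erase_subset _ _), ?_⟩
              intro h
              have := h (mem_filter.mpr ⟨haT, hC2⟩)
              simp at this
            exact Nat.add_lt_add_of_le_of_lt h1 h2
          omega
        · obtain ⟨h1, h2, h3⟩ := hf a ha.1 ha.2
          obtain ⟨i1, hi1⟩ := (S.τmem (f a)).mp ⟨hBΓ h1, hS ▸ h2⟩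
          have hib1 : S.τ i1 ∉ Γ \ B := by
            rw [hi1, mem_sdiff]
            exact fun h => h.2 h1
          have hlt : ∑ i, ((S.U i).filter (fun l => ¬ C l)).card <
              ∑ i, ((U' i).filter (fun l => ¬ C l)).card := by
            apply sum_lt_sum (fun i _ => hd i)
            refine ⟨i1, mem_univ _, ?_⟩
            have hnm := hUnm i1 hib1
            simp only [hU', if_neg hib1]
            rw [hi1, h3] at hnm ⊢
            rw [filter_insert, if_pos hC2, card_insert_of_notMem (by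
              rw [mem_filter]
              exact fun h => hnm h.1)]
            exact Nat.lt_succ_self _
          omega
  · by_cases hAB : A = B
    · rw [if_pos hAB, add_zero]
      exact S.c3.trans (sum_le_sum (fun i _ => card_le_card (hUU i)))
    · rw [if_neg hAB]
      have hne : (B \ A).Nonempty := by
        rw [sdiff_nonempty]
        intro h
        exact hAB (eq_of_subset_of_card_le h hcard.le).symm
      obtain ⟨a, ha⟩ := hne
      rw [mem_sdiff] at ha
      obtain ⟨i, hi⟩ := (S.τmem a).mp ⟨hBΓ ha.1, hS ▸ ha.2⟩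
      have hlt : ∑ i, (S.U i).card < ∑ i, (U' i).card := by
        apply sum_lt_sum (fun i _ => card_le_card (hUU i))
        refine ⟨i, mem_univ _, ?_⟩
        have hib : S.τ i ∉ Γ \ B := by
          rw [hi, mem_sdiff]
          exact fun h => h.2 ha.1
        have hnm := hUnm i hib
        simp only [hU', if_neg hib]
        rw [card_insert_of_notMem hnm]
        exact Nat.lt_succ_self _
      have := S.c3
      omega

/-- the abscissae at most `y` where the set of the `j` lowest lines changes -/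
noncomputable def evs (Γ : Finset (ℝ × ℝ)) (X : Finset ℝ) (j : ℕ) (y : ℝ) : Finset ℝ :=
  open scoped Classical in X.filter (fun x => x ≤ y ∧ Sm Γ j x ≠ Sp Γ j x)

open scoped Classical in
theorem exists_St {Γ : Finset (ℝ × ℝ)} {X : Finset ℝ} (hX : Cr Γ X) (C : ℝ × ℝ → Prop)
    {j n' : ℕ} (hn : j + n' = Γ.card) (y : ℝ) :
    Nonempty (St Γ C j n' y (evs Γ X j y).card) := by
  induction hc : (X.filter (fun x => x ≤ y)).card using Nat.strong_induction_on generalizing y with
  | _ c ih =>
  by_cases hne : (X.filter (fun x => x ≤ y)).Nonempty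
  · set y1 := (X.filter (fun x => x ≤ y)).max' hne with hy1
    have hy1m : y1 ∈ X.filter (fun x => x ≤ y) := max'_mem _ _
    rw [mem_filter] at hy1m
    have hy1max : ∀ z ∈ X, z ≤ y → z ≤ y1 := fun z hz hzy =>
      le_max' _ _ (mem_filter.mpr ⟨hz, hzy⟩)
    -- a point before `y1` with no crossings in between
    have hex : ∃ y2 < y1, ∀ z ∈ X, ¬ (y2 < z ∧ z < y1) := by
      by_cases h : (X.filter (fun x => x < y1)).Nonempty
      · refine ⟨(X.filter (fun x => x < y1)).max' h, ?_, ?_⟩
        · exact (mem_filter.mp (max'_mem _ h)).2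
        · rintro z hz ⟨h1, h2⟩
          exact absurd (le_max' _ _ (mem_filter.mpr ⟨hz, h2⟩)) (not_le.mpr h1)
      · refine ⟨y1 - 1, by linarith, ?_⟩
        rintro z hz ⟨h1, h2⟩
        exact h ⟨z, mem_filter.mpr ⟨hz, h2⟩⟩
    obtain ⟨y2, hy2, hno⟩ := hex
    have hlt : (X.filter (fun x => x ≤ y2)).card < c := by
      rw [← hc]
      apply card_lt_card
      refine ⟨?_, ?_⟩
      · intro z hz
        rw [mem_filter] at *
        exact ⟨hz.1, by linarith [hz.2, hy1m.2]⟩
      · intro h
        have := h (mem_filter.mpr hy1m)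
        rw [mem_filter] at this
        linarith [this.2]
    obtain ⟨S⟩ := ih _ hlt y2 rfl
    obtain ⟨S1⟩ := step hX S hy2 hno
    obtain ⟨S2⟩ := move hX S1 hy1m.2 (fun z hz h => absurd (hy1max z hz h.2) (not_le.mpr h.1))
    have hN : (evs Γ X j y2).card + (if Sm Γ j y1 = Sp Γ j y1 then 0 else 1) =
        (evs Γ X j y).card := by
      by_cases hE : Sm Γ j y1 = Sp Γ j y1
      · rw [if_pos hE, add_zero]
        congr 1
        ext z
        unfold evs
        simp only [mem_filter]
        constructor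
        · rintro ⟨h1, h2, h3⟩
          exact ⟨h1, by linarith [hy1m.2], h3⟩
        · rintro ⟨h1, h2, h3⟩
          refine ⟨h1, ?_, h3⟩
          have h4 := hy1max z h1 h2
          by_contra h5
          push Not at h5
          rcases h4.lt_or_eq with h6 | h6
          · exact hno z h1 ⟨h5, h6⟩
          · exact h3 (h6 ▸ hE)
      · rw [if_neg hE]
        have : evs Γ X j y = insert y1 (evs Γ X j y2) := by
          ext z
          unfold evs
          simp only [mem_filter, mem_insert]
          constructor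
          · rintro ⟨h1, h2, h3⟩
            have h4 := hy1max z h1 h2
            rcases h4.lt_or_eq with h6 | h6
            · right
              refine ⟨h1, ?_, h3⟩
              by_contra h5
              push Not at h5
              exact hno z h1 ⟨h5, h6⟩
            · exact Or.inl h6
          · rintro (rfl | ⟨h1, h2, h3⟩)
            · exact ⟨hy1m.1, hy1m.2, hE⟩
            · exact ⟨h1, by linarith [hy1m.2], h3⟩
        rw [this, card_insert_of_notMem]
        unfold evs
        rw [mem_filter]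
        rintro ⟨_, h, _⟩
        linarith
    rw [← hN]
    exact ⟨S2⟩
  · have h0 : (evs Γ X j y).card = 0 := by
      rw [card_eq_zero]
      unfold evs
      ext z
      simp only [mem_filter, notMem_empty, iff_false]
      rintro ⟨h1, h2, _⟩
      exact hne ⟨z, mem_filter.mpr ⟨h1, h2⟩⟩
    rw [h0]
    exact base Γ C j n' hn y

end Pool.Agent.TH290.LV
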