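import Mathlib

set_option autoImplicit false

/-!
# Chains below and above a level of a line arrangement

Lines are pairs `(slope, intercept)`. For a finite set `Γ` of lines, `Sp Γ j x` (`Sm Γ j x`) is the
set of the `j` lowest lines just after (just before) the abscissa `x`.
-/

open Finset

namespace Pool.Agent.TH290.LV

/-- height at abscissa `x` -/
def ht (l : ℝ × ℝ) (x : ℝ) : ℝ := l.1 * x + l.2

theorem card_low {α β : Type*} [DecidableEq α] [LinearOrder β] (f : α → β)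
    (hf : Function.Injective f) (s : Finset α) (j : ℕ) :
    (s.filter (fun q => (s.filter (fun p => f p < f q)).card < j)).card = min j s.card := by
  induction s using Finset.induction_on_max_value f with
  | empty => simp
  | insert a s ha hmax ih =>
    have hlt : ∀ q ∈ s, f q < f a := fun q hq =>
      lt_of_le_of_ne (hmax q hq) (fun h => ha (hf h ▸ hq))
    have e1 : (insert a s).filter (fun p => f p < f a) = s := by
      rw [filter_insert, if_neg (lt_irrefl _)]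
      exact filter_true_of_mem hlt
    have e2 : ∀ q ∈ s, (insert a s).filter (fun p => f p < f q) =
        s.filter (fun p => f p < f q) := by
      intro q hq
      rw [filter_insert, if_neg (not_lt.mpr (hmax q hq))]
    have e3 : s.filter (fun q => ((insert a s).filter (fun p => f p < f q)).card < j) =
        s.filter (fun q => (s.filter (fun p => f p < f q)).card < j) := by
      apply filter_congr
      intro q hq
      rw [e2 q hq]
    rw [filter_insert, e1, e3, card_insert_of_notMem ha]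
    split_ifs with h
    · rw [card_insert_of_notMem (fun h' => ha (mem_filter.mp h').1), ih]
      omega
    · rw [ih]
      omega

/-- key for the order just after `x` -/
noncomputable def kp (x : ℝ) (p : ℝ × ℝ) : ℝ ×ₗ ℝ := toLex (ht p x, p.1)

/-- key for the order just before `x` -/
noncomputable def km (x : ℝ) (p : ℝ × ℝ) : ℝ ×ₗ ℝ := toLex (ht p x, -p.1)

theorem kp_lt {x : ℝ} {p q : ℝ × ℝ} :
    kp x p < kp x q ↔ ht p x < ht q x ∨ (ht p x = ht q x ∧ p.1 < q.1) := by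
  unfold kp
  rw [Prod.Lex.lt_iff]
  rfl

theorem km_lt {x : ℝ} {p q : ℝ × ℝ} :
    km x p < km x q ↔ ht p x < ht q x ∨ (ht p x = ht q x ∧ q.1 < p.1) := by
  unfold km
  rw [Prod.Lex.lt_iff]
  simp

theorem ht_inj {x : ℝ} {p q : ℝ × ℝ} (h1 : ht p x = ht q x) (h2 : p.1 = q.1) : p = q := by
  unfold ht at h1
  refine Prod.ext h2 ?_
  rw [h2] at h1
  linarith

theorem kp_inj (x : ℝ) : Function.Injective (kp x) := by
  intro p q h
  unfold kp at h
  have h' := toLex.injective h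
  rw [Prod.mk.injEq] at h'
  exact ht_inj h'.1 h'.2

theorem km_inj (x : ℝ) : Function.Injective (km x) := by
  intro p q h
  unfold km at h
  have h' := toLex.injective h
  rw [Prod.mk.injEq] at h'
  exact ht_inj h'.1 (neg_injective h'.2)

open scoped Classical in
/-- the `j` lowest lines just after `x` -/
noncomputable def Sp (Γ : Finset (ℝ × ℝ)) (j : ℕ) (x : ℝ) : Finset (ℝ × ℝ) :=
  Γ.filter (fun q => (Γ.filter (fun p => kp x p < kp x q)).card < j)

open scoped Classical in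
/-- the `j` lowest lines just before `x` -/
noncomputable def Sm (Γ : Finset (ℝ × ℝ)) (j : ℕ) (x : ℝ) : Finset (ℝ × ℝ) :=
  Γ.filter (fun q => (Γ.filter (fun p => km x p < km x q)).card < j)

theorem Sp_sub (Γ : Finset (ℝ × ℝ)) (j : ℕ) (x : ℝ) : Sp Γ j x ⊆ Γ := by
  classical
  exact filter_subset _ _

theorem Sm_sub (Γ : Finset (ℝ × ℝ)) (j : ℕ) (x : ℝ) : Sm Γ j x ⊆ Γ := by
  classical
  exact filter_subset _ _

theorem card_Sp (Γ : Finset (ℝ × ℝ)) (j : ℕ) (x : ℝ) : (Sp Γ j x).card = min j Γ.card := by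
  classical
  have := card_low (kp x) (kp_inj x) Γ j
  unfold Sp
  convert this

theorem card_Sm (Γ : Finset (ℝ × ℝ)) (j : ℕ) (x : ℝ) : (Sm Γ j x).card = min j Γ.card := by
  classical
  have := card_low (km x) (km_inj x) Γ j
  unfold Sm
  convert this

theorem Sp_lower {Γ : Finset (ℝ × ℝ)} {j : ℕ} {x : ℝ} {p q : ℝ × ℝ} (hp : p ∈ Γ)
    (hq : q ∈ Sp Γ j x) (h : kp x p ≤ kp x q) : p ∈ Sp Γ j x := by
  classical
  unfold Sp at *
  rw [mem_filter] at *
  refine ⟨hp, lt_of_le_of_lt (card_le_card ?_) hq.2⟩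
  intro r hr
  rw [mem_filter] at *
  exact ⟨hr.1, lt_of_lt_of_le hr.2 h⟩

theorem Sm_lower {Γ : Finset (ℝ × ℝ)} {j : ℕ} {x : ℝ} {p q : ℝ × ℝ} (hp : p ∈ Γ)
    (hq : q ∈ Sm Γ j x) (h : km x p ≤ km x q) : p ∈ Sm Γ j x := by
  classical
  unfold Sm at *
  rw [mem_filter] at *
  refine ⟨hp, lt_of_le_of_lt (card_le_card ?_) hq.2⟩
  intro r hr
  rw [mem_filter] at *
  exact ⟨hr.1, lt_of_lt_of_le hr.2 h⟩

/-- a line `l` which leaves and a line `m` which enters cross at `x`, and `m` has smaller slope -/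
theorem exch {Γ : Finset (ℝ × ℝ)} {j : ℕ} {x : ℝ} {l m : ℝ × ℝ} (h1 : l ∈ Sm Γ j x)
    (h2 : l ∉ Sp Γ j x) (h3 : m ∈ Sp Γ j x) (h4 : m ∉ Sm Γ j x) :
    ht l x = ht m x ∧ m.1 < l.1 := by
  have a1 : km x l < km x m := by
    by_contra h
    exact h4 (Sm_lower (Sp_sub _ _ _ h3) h1 (not_lt.mp h))
  have a2 : kp x m < kp x l := by
    by_contra h
    exact h2 (Sp_lower (Sm_sub _ _ _ h1) h3 (not_lt.mp h))
  rw [km_lt] at a1
  rw [kp_lt] at a2
  rcases a1 with a1 | a1 <;> rcases a2 with a2 | a2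
  · linarith
  · linarith [a2.1]
  · linarith [a1.1]
  · exact ⟨a1.1, a2.2⟩

/-- `X` contains all abscissae of crossings -/
def Cr (Γ : Finset (ℝ × ℝ)) (X : Finset ℝ) : Prop :=
  ∀ p ∈ Γ, ∀ q ∈ Γ, ∀ x, p.1 ≠ q.1 → ht p x = ht q x → x ∈ X

theorem keep {Γ : Finset (ℝ × ℝ)} {X : Finset ℝ} (hX : Cr Γ X) {x x' : ℝ} (hx : x < x')
    (hno : ∀ z ∈ X, ¬ (x < z ∧ z < x')) {p q : ℝ × ℝ} (hp : p ∈ Γ) (hq : q ∈ Γ)
    (h : kp x p < kp x q) : km x' p < km x' q := by
  rw [kp_lt] at h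
  rw [km_lt]
  rcases h with h | ⟨h, h'⟩
  · by_cases hs : p.1 = q.1
    · left
      unfold ht at h ⊢
      rw [hs] at h ⊢
      linarith
    · rcases lt_trichotomy (ht p x') (ht q x') with h3 | h3 | h3
      · exact Or.inl h3
      · right
        refine ⟨h3, ?_⟩
        unfold ht at *
        by_contra hc
        push Not at hc
        nlinarith
      · exfalso
        -- a crossing strictly between
        have hz : ht p ((q.2 - p.2) / (p.1 - q.1)) = ht q ((q.2 - p.2) / (p.1 - q.1)) := by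
          have hne : p.1 - q.1 ≠ 0 := sub_ne_zero.mpr hs
          unfold ht
          field_simp
          ring
        have hslope : 0 < p.1 - q.1 := by
          unfold ht at *
          by_contra hc
          push Not at hc
          nlinarith
        refine hno _ (hX p hp q hq _ hs hz) ⟨?_, ?_⟩
        · rw [lt_div_iff₀ hslope]
          unfold ht at *
          nlinarith
        · rw [div_lt_iff₀ hslope]
          unfold ht at *
          nlinarith
  · left
    unfold ht at *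
    nlinarith

theorem keep_iff {Γ : Finset (ℝ × ℝ)} {X : Finset ℝ} (hX : Cr Γ X) {x x' : ℝ} (hx : x < x')
    (hno : ∀ z ∈ X, ¬ (x < z ∧ z < x')) {p q : ℝ × ℝ} (hp : p ∈ Γ) (hq : q ∈ Γ) :
    kp x p < kp x q ↔ km x' p < km x' q := by
  refine ⟨keep hX hx hno hp hq, ?_⟩
  intro h
  by_contra hc
  rcases (not_lt.mp hc).lt_or_eq with h1 | h1
  · exact lt_asymm h (keep hX hx hno hq hp h1)
  · have := kp_inj x h1
    rw [this] at h
    exact lt_irrefl _ h

theorem Sp_eq_Sm {Γ : Finset (ℝ × ℝ)} {X : Finset ℝ} (hX : Cr Γ X) {x x' : ℝ} (hx : x < x')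
    (hno : ∀ z ∈ X, ¬ (x < z ∧ z < x')) (j : ℕ) : Sp Γ j x = Sm Γ j x' := by
  classical
  unfold Sp Sm
  apply filter_congr
  intro q hq
  have : Γ.filter (fun p => kp x p < kp x q) = Γ.filter (fun p => km x' p < km x' q) := by
    apply filter_congr
    intro p hp
    exact keep_iff hX hx hno hp hq
  rw [this]

theorem km_kp {Γ : Finset (ℝ × ℝ)} {X : Finset ℝ} (hX : Cr Γ X) {x : ℝ} (hx : x ∉ X)
    {p q : ℝ × ℝ} (hp : p ∈ Γ) (hq : q ∈ Γ) : km x p < km x q ↔ ht p x < ht q x := by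
  rw [km_lt]
  refine ⟨?_, Or.inl⟩
  rintro (h | ⟨h, h'⟩)
  · exact h
  · exact absurd (hX p hp q hq x h'.ne' h) hx

theorem kp_ht {Γ : Finset (ℝ × ℝ)} {X : Finset ℝ} (hX : Cr Γ X) {x : ℝ} (hx : x ∉ X)
    {p q : ℝ × ℝ} (hp : p ∈ Γ) (hq : q ∈ Γ) : kp x p < kp x q ↔ ht p x < ht q x := by
  rw [kp_lt]
  refine ⟨?_, Or.inl⟩
  rintro (h | ⟨h, h'⟩)
  · exact h
  · exact absurd (hX p hp q hq x h'.ne h) hx

theorem Sm_eq_Sp {Γ : Finset (ℝ × ℝ)} {X : Finset ℝ} (hX : Cr Γ X) {x : ℝ} (hx : x ∉ X) (j : ℕ) :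
    Sm Γ j x = Sp Γ j x := by
  classical
  unfold Sp Sm
  apply filter_congr
  intro q hq
  have : Γ.filter (fun p => km x p < km x q) = Γ.filter (fun p => kp x p < kp x q) := by
    apply filter_congr
    intro p hp
    rw [km_kp hX hx hp hq, kp_ht hX hx hp hq]
  rw [this]

theorem Sp_const {Γ : Finset (ℝ × ℝ)} {X : Finset ℝ} (hX : Cr Γ X) {x x' : ℝ} (hx : x ≤ x')
    (hno : ∀ z ∈ X, ¬ (x < z ∧ z ≤ x')) (j : ℕ) : Sp Γ j x = Sp Γ j x' := by
  rcases hx.lt_or_eq with h | h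
  · rw [Sp_eq_Sm hX h (fun z hz h' => hno z hz ⟨h'.1, h'.2.le⟩),
      Sm_eq_Sp hX (fun h' => hno x' h' ⟨h, le_rfl⟩)]
  · rw [h]

/-! ### chains -/

/-- the lines `T` visited by a chain whose current line is `s`, at the abscissa `y` -/
def Inv (T : Finset (ℝ × ℝ)) (s : ℝ × ℝ) (y : ℝ) : Prop :=
  s ∈ T ∧ (∀ p ∈ T, p ≠ s → s.1 < p.1 ∧ ht s y ≤ ht p y) ∧
    ∀ q ∈ T, q ≠ s → ∃ x ≤ y, ∀ p ∈ T, p ≠ q → ht q x < ht p x

theorem Inv.mono {T : Finset (ℝ × ℝ)} {s : ℝ × ℝ} {y y' : ℝ} (h : Inv T s y) (hy : y ≤ y') :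
    Inv T s y' := by
  refine ⟨h.1, ?_, ?_⟩
  · intro p hp hps
    obtain ⟨h1, h2⟩ := h.2.1 p hp hps
    refine ⟨h1, ?_⟩
    unfold ht at *
    nlinarith
  · intro q hq hqs
    obtain ⟨x, hx, h1⟩ := h.2.2 q hq hqs
    exact ⟨x, hx.trans hy, h1⟩

theorem Inv.base (s : ℝ × ℝ) (y : ℝ) : Inv {s} s y := by
  refine ⟨mem_singleton_self s, ?_, ?_⟩
  · intro p hp hps
    exact absurd (mem_singleton.mp hp) hps
  · intro p hp hps
    exact absurd (mem_singleton.mp hp) hps

theorem Inv.notMem {T : Finset (ℝ × ℝ)} {s m : ℝ × ℝ} {y : ℝ} (h : Inv T s y)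
    (hm : m.1 < s.1) : m ∉ T := by
  intro hmT
  by_cases e : m = s
  · rw [e] at hm
    exact lt_irrefl _ hm
  · exact lt_asymm hm (h.2.1 m hmT e).1

theorem Inv.step {T : Finset (ℝ × ℝ)} {s m : ℝ × ℝ} {y y' : ℝ} (h : Inv T s y) (hy : y < y')
    (h1 : ht s y' = ht m y') (h2 : m.1 < s.1) : Inv (insert m T) m y' := by
  have hms : m ≠ s := by
    rintro rfl
    exact lt_irrefl _ h2
  refine ⟨mem_insert_self _ _, ?_, ?_⟩
  · intro p hp hpm
    have hpT : p ∈ T := (mem_insert.mp hp).resolve_left hpm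
    by_cases e : p = s
    · rw [e]
      exact ⟨h2, h1.ge⟩
    · obtain ⟨h3, h4⟩ := (h.mono hy.le).2.1 p hpT e
      exact ⟨h2.trans h3, h1 ▸ h4⟩
  · intro q hq hqm
    have hqT : q ∈ T := (mem_insert.mp hq).resolve_left hqm
    by_cases e : q = s
    · subst e
      refine ⟨(y + y') / 2, by linarith, ?_⟩
      intro p hp hpq
      rw [mem_insert] at hp
      rcases hp with rfl | hp
      · unfold ht at *
        nlinarith
      · obtain ⟨h3, h4⟩ := h.2.1 p hp hpq
        unfold ht at *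
        nlinarith
    · obtain ⟨x, hx, h3⟩ := h.2.2 q hqT e
      refine ⟨x, hx.trans hy.le, ?_⟩
      intro p hp hpq
      rw [mem_insert] at hp
      rcases hp with rfl | hp
      · have h4 := h3 s h.1 (Ne.symm e)
        refine h4.trans ?_
        unfold ht at *
        nlinarith
      · exact h3 p hp hpq

/-- every line of `T` is the strict minimum somewhere -/
def Env (T : Finset (ℝ × ℝ)) : Prop := ∀ q ∈ T, ∃ x, ∀ p ∈ T, p ≠ q → ht q x < ht p x

theorem Inv.env {T : Finset (ℝ × ℝ)} {s : ℝ × ℝ} {y : ℝ} (h : Inv T s y) : Env T := by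
  intro q hq
  by_cases e : q = s
  · subst e
    refine ⟨y + 1, ?_⟩
    intro p hp hpq
    obtain ⟨h3, h4⟩ := h.2.1 p hp hpq
    unfold ht at *
    nlinarith
  · obtain ⟨x, _, h3⟩ := h.2.2 q hq e
    exact ⟨x, h3⟩

/-- every line of the family attains the maximum of the family at some abscissa -/
def OnUpper (F : Finset (ℝ × ℝ)) : Prop := ∀ p ∈ F, ∃ x, ∀ q ∈ F, ht q x ≤ ht p x

/-- every line of the family attains the minimum of the family at some abscissa -/
def OnLower (F : Finset (ℝ × ℝ)) : Prop := ∀ p ∈ F, ∃ x, ∀ q ∈ F, ht p x ≤ ht q x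

theorem no3 {T F : Finset (ℝ × ℝ)} (hT : Env T) (hF : OnUpper F) {a b c : ℝ × ℝ}
    (ha : a ∈ T ∧ a ∈ F) (hb : b ∈ T ∧ b ∈ F) (hc : c ∈ T ∧ c ∈ F) (h1 : a.1 < b.1)
    (h2 : b.1 < c.1) : False := by
  obtain ⟨x, hx⟩ := hT b hb.1
  obtain ⟨z, hz⟩ := hF b hb.2
  have e1 := hx a ha.1 (fun h => h1.ne (congrArg Prod.fst h))
  have e2 := hx c hc.1 (fun h => h2.ne' (congrArg Prod.fst h))
  have e3 := hz a ha.2
  have e4 := hz c hc.2
  unfold ht at *
  rcases le_total x z with h | h <;> nlinarith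

theorem slope_ne {T : Finset (ℝ × ℝ)} (hT : Env T) {a b : ℝ × ℝ} (ha : a ∈ T) (hb : b ∈ T)
    (h : a ≠ b) : a.1 ≠ b.1 := by
  intro e
  obtain ⟨x, hx⟩ := hT a ha
  obtain ⟨z, hz⟩ := hT b hb
  have e1 := hx b hb h.symm
  have e2 := hz a ha h
  unfold ht at *
  rw [e] at *
  linarith

open scoped Classical in
theorem card_two {T F : Finset (ℝ × ℝ)} (hT : Env T) (hF : OnUpper F) :
    (T ∩ F).card ≤ 2 := by
  by_contra hc
  push Not at hc
  obtain ⟨a, ha, b, hb, c, hc', hab, hac, hbc⟩ := two_lt_card.mp hc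
  rw [mem_inter] at ha hb hc'
  have e1 := slope_ne hT ha.1 hb.1 hab
  have e2 := slope_ne hT ha.1 hc'.1 hac
  have e3 := slope_ne hT hb.1 hc'.1 hbc
  rcases lt_or_gt_of_ne e1 with e1 | e1 <;> rcases lt_or_gt_of_ne e2 with e2 | e2 <;>
    rcases lt_or_gt_of_ne e3 with e3 | e3
  · exact no3 hT hF ha hb hc' e1 e3
  · exact no3 hT hF ha hc' hb e2 e3
  · linarith
  · exact no3 hT hF hc' ha hb e2 e1
  · exact no3 hT hF hb ha hc' e1 e2
  · linarith
  · exact no3 hT hF hb hc' ha e3 e2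
  · exact no3 hT hF hc' hb ha e3 e1

/-- reflection in the horizontal axis -/
def rf (p : ℝ × ℝ) : ℝ × ℝ := (-p.1, -p.2)

theorem ht_rf (p : ℝ × ℝ) (x : ℝ) : ht (rf p) x = - ht p x := by
  unfold ht rf
  ring

theorem rf_rf (p : ℝ × ℝ) : rf (rf p) = p := by
  simp [rf]

theorem rf_inj : Function.Injective rf := by
  intro p q h
  have := congrArg rf h
  rwa [rf_rf, rf_rf] at this

open scoped Classical in
theorem OnLower.rf {F : Finset (ℝ × ℝ)} (hF : OnLower F) : OnUpper (F.image rf) := by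
  intro p hp
  rw [mem_image] at hp
  obtain ⟨p', hp', rfl⟩ := hp
  obtain ⟨x, hx⟩ := hF p' hp'
  refine ⟨x, ?_⟩
  intro q hq
  rw [mem_image] at hq
  obtain ⟨q', hq', rfl⟩ := hq
  rw [ht_rf, ht_rf]
  linarith [hx q' hq']

open scoped Classical in
theorem card_two' {U F : Finset (ℝ × ℝ)} (hU : Env (U.image rf)) (hF : OnLower F) :
    (U ∩ F).card ≤ 2 := by
  have := card_two hU hF.rf
  rwa [← image_inter _ _ rf_inj, card_image_of_injective _ rf_inj] at this

end Pool.Agent.TH290.LV
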