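import Pool.Agent.TH290.LV.Level

set_option autoImplicit false

/-!
# Lines `y = t x + f t`
-/

open Finset

namespace Pool.Agent.TH290.LV

theorem sep (L R : Finset ℝ) (h : ∀ l ∈ L, ∀ r ∈ R, l ≤ r) :
    ∃ x, (∀ l ∈ L, l ≤ x) ∧ ∀ r ∈ R, x ≤ r := by
  by_cases hL : L.Nonempty
  · exact ⟨L.max' hL, fun l hl => le_max' _ _ hl, fun r hr => h _ (max'_mem _ hL) r hr⟩
  · by_cases hR : R.Nonempty
    · refine ⟨R.min' hR, fun l hl => absurd ⟨l, hl⟩ hL, fun r hr => min'_le _ _ hr⟩
    · exact ⟨0, fun l hl => absurd ⟨l, hl⟩ hL, fun r hr => absurd ⟨r, hr⟩ hR⟩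

theorem concave_pt {f : ℝ → ℝ} {I : Set ℝ} (hf : ConcaveOn ℝ I f) (A : Finset ℝ)
    (hA : ∀ t ∈ A, t ∈ I) (t0 : ℝ) :
    ∃ x, ∀ t ∈ A, t * x + f t ≤ t0 * x + f t0 := by
  obtain ⟨x, h1, h2⟩ := sep ((A.filter (fun t => t < t0)).image (fun t => (f t0 - f t) / (t - t0)))
    ((A.filter (fun t => t0 < t)).image (fun t => (f t0 - f t) / (t - t0))) (by
      intro l hl r hr
      rw [mem_image] at hl hr
      obtain ⟨t1, h1, rfl⟩ := hl
      obtain ⟨t2, h2, rfl⟩ := hr
      rw [mem_filter] at h1 h2
      have h3 := hf.slope_anti_adjacent (hA _ h1.1) (hA _ h2.1) h1.2 h2.2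
      have e1 : (f t0 - f t1) / (t1 - t0) = -((f t0 - f t1) / (t0 - t1)) := by
        rw [← neg_sub t0 t1, div_neg]
      have e2 : (f t0 - f t2) / (t2 - t0) = -((f t2 - f t0) / (t2 - t0)) := by
        rw [← neg_div, neg_sub]
      rw [e1, e2]
      linarith)
  refine ⟨x, ?_⟩
  intro t ht'
  rcases lt_trichotomy t t0 with h | h | h
  · have h3 := h1 _ (mem_image_of_mem _ (mem_filter.mpr ⟨ht', h⟩))
    have h4 : (f t0 - f t) / (t - t0) = (f t - f t0) / (t0 - t) := by
      rw [← neg_sub t0 t, div_neg, ← neg_div, neg_sub]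
    rw [h4, div_le_iff₀ (by linarith)] at h3
    linarith
  · rw [h]
  · have h3 := h2 _ (mem_image_of_mem _ (mem_filter.mpr ⟨ht', h⟩))
    rw [le_div_iff₀ (by linarith)] at h3
    linarith

open scoped Classical in
theorem onUpper_graph {f : ℝ → ℝ} {I : Set ℝ} (hf : ConcaveOn ℝ I f) (A : Finset ℝ)
    (hA : ∀ t ∈ A, t ∈ I) : OnUpper (A.image (fun t => (t, f t))) := by
  intro p hp
  rw [mem_image] at hp
  obtain ⟨t0, -, rfl⟩ := hp
  obtain ⟨x, hx⟩ := concave_pt hf A hA t0
  refine ⟨x, ?_⟩
  intro q hq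
  rw [mem_image] at hq
  obtain ⟨t, ht', rfl⟩ := hq
  exact hx t ht'

open scoped Classical in
theorem onLower_graph {f : ℝ → ℝ} {I : Set ℝ} (hf : ConvexOn ℝ I f) (A : Finset ℝ)
    (hA : ∀ t ∈ A, t ∈ I) : OnLower (A.image (fun t => (t, f t))) := by
  intro p hp
  rw [mem_image] at hp
  obtain ⟨t0, -, rfl⟩ := hp
  obtain ⟨x, hx⟩ := concave_pt hf.neg A hA t0
  refine ⟨-x, ?_⟩
  intro q hq
  rw [mem_image] at hq
  obtain ⟨t, ht', rfl⟩ := hq
  have := hx t ht'
  simp only [Pi.neg_apply] at this
  unfold ht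
  simp only
  linarith

/-- families, each of one of the two types -/
theorem main_families {m : ℕ} {Γ : Finset (ℝ × ℝ)} (F : Fin m → Finset (ℝ × ℝ))
    (hΓ : ∀ l ∈ Γ, ∃ i, l ∈ F i) (hF : ∀ i, OnUpper (F i) ∨ OnLower (F i)) {k : ℕ}
    (hk : k < Γ.card) : complexity Γ k ≤ 8 * m * Γ.card := by
  classical
  have h := main_mixed (ι := {i // OnUpper (F i)}) (κ := {i // ¬ OnUpper (F i)})
    (fun i => F i.1) (fun i => F i.1) (fun i => i.2) (fun i => (hF i.1).resolve_left i.2)
    (Γ := Γ) (by
      intro l hl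
      obtain ⟨i, hi⟩ := hΓ l hl
      by_cases h : OnUpper (F i)
      · exact Or.inl ⟨⟨i, h⟩, hi⟩
      · exact Or.inr ⟨⟨i, h⟩, hi⟩) hk
  refine h.trans ?_
  have hc : Fintype.card {i // OnUpper (F i)} + Fintype.card {i // ¬ OnUpper (F i)} = m := by
    rw [Fintype.card_subtype_compl, Fintype.card_fin]
    have := Fintype.card_subtype_le (fun i => OnUpper (F i))
    rw [Fintype.card_fin] at this
    omega
  set a := Fintype.card {i // OnUpper (F i)}
  set b := Fintype.card {i // ¬ OnUpper (F i)}
  rw [← hc]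
  have h1 : 4 * a * (2 * k + 1) ≤ 4 * a * (2 * Γ.card) := Nat.mul_le_mul_left _ (by omega)
  have h2 : 2 * b * (2 * (Γ.card - k) - 1) ≤ 2 * b * (2 * Γ.card) :=
    Nat.mul_le_mul_left _ (by omega)
  calc _ ≤ 4 * a * (2 * Γ.card) + 2 * b * (2 * Γ.card) := Nat.add_le_add h1 h2
    _ ≤ 4 * a * (2 * Γ.card) + 4 * b * (2 * Γ.card) := by
        apply Nat.add_le_add_left
        apply Nat.mul_le_mul_right
        omega
    _ = _ := by ring

open scoped Classical in
/-- graphs of functions with few pieces of constant convexity -/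
theorem main_graph {m : ℕ} (f : ℝ → ℝ) (S : Finset ℝ) (I : Fin m → Set ℝ)
    (hS : ∀ t ∈ S, ∃ i, t ∈ I i) (hI : ∀ i, ConcaveOn ℝ (I i) f ∨ ConvexOn ℝ (I i) f) {k : ℕ}
    (hk : k < S.card) :
    complexity (S.image (fun t => (t, f t))) k ≤ 8 * m * S.card := by
  have hc : (S.image (fun t => (t, f t))).card = S.card :=
    card_image_of_injective _ (fun a b h => congrArg Prod.fst h)
  have h := main_families (Γ := S.image (fun t => (t, f t)))
    (fun i => (S.filter (fun t => t ∈ I i)).image (fun t => (t, f t))) (by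
      intro l hl
      rw [mem_image] at hl
      obtain ⟨t, ht', rfl⟩ := hl
      obtain ⟨i, hi⟩ := hS t ht'
      exact ⟨i, mem_image_of_mem _ (mem_filter.mpr ⟨ht', hi⟩)⟩) (by
      intro i
      rcases hI i with h | h
      · exact Or.inl (onUpper_graph h _ (fun t ht' => (mem_filter.mp ht').2))
      · exact Or.inr (onLower_graph h _ (fun t ht' => (mem_filter.mp ht').2))) (k := k)
    (by rw [hc]; exact hk)
  rwa [hc] at h

open scoped Classical in
/-- graphs of polynomials -/
theorem main_poly (p : Polynomial ℝ) (hp : 2 ≤ p.natDegree) (S : Finset ℝ) {k : ℕ}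
    (hk : k < S.card) :
    complexity (S.image (fun t => (t, p.eval t))) k ≤ 8 * (p.natDegree - 1) * S.card := by
  set q := Polynomial.derivative (Polynomial.derivative p) with hq
  have hdeg1 : p.derivative.natDegree = p.natDegree - 1 :=
    Polynomial.natDegree_derivative p
  have hdeg2 : q.natDegree = p.natDegree - 2 := by
    rw [hq, Polynomial.natDegree_derivative, hdeg1]
    omega
  have hq0 : q ≠ 0 := by
    intro h
    rw [hq] at h
    have := Polynomial.derivative_eq_zero.mp h
    omega
  set Z := q.roots.toFinset with hZ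
  have hZc : Z.card ≤ p.natDegree - 2 := by
    rw [← hdeg2]
    exact (Multiset.toFinset_card_le _).trans (Polynomial.card_roots' q)
  have hZmem : ∀ z, z ∈ Z ↔ q.eval z = 0 := by
    intro z
    rw [hZ, Multiset.mem_toFinset, Polynomial.mem_roots hq0]
    rfl
  set I : Fin (Z.card + 1) → Set ℝ := fun i => {t | (Z.filter (fun z => z < t)).card = i} with hI
  have hmono : ∀ s t : ℝ, s ≤ t → (Z.filter (fun z => z < s)).card ≤
      (Z.filter (fun z => z < t)).card := by
    intro s t hst
    apply card_le_card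
    intro z hz
    rw [mem_filter] at *
    exact ⟨hz.1, hz.2.trans_le hst⟩
  have hconv : ∀ i, Convex ℝ (I i) := by
    intro i
    apply Set.OrdConnected.convex
    constructor
    rintro a ha b hb c ⟨h1, h2⟩
    simp only [hI, Set.mem_ofPred_eq] at *
    have h3 := hmono _ _ h1
    have h4 := hmono _ _ h2
    omega
  have hroot : ∀ i, ∀ t ∈ interior (I i), q.eval t ≠ 0 := by
    intro i t hti h0
    obtain ⟨ε, hε, hball⟩ := Metric.mem_nhds_iff.mp (mem_interior_iff_mem_nhds.mp hti)
    have h1 : t - ε / 2 ∈ I i := hball (by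
      rw [Metric.mem_ball, Real.dist_eq, abs_lt]
      constructor <;> linarith)
    have h2 : t + ε / 2 ∈ I i := hball (by
      rw [Metric.mem_ball, Real.dist_eq, abs_lt]
      constructor <;> linarith)
    simp only [hI, Set.mem_ofPred_eq] at h1 h2
    have h3 : (Z.filter (fun z => z < t - ε / 2)).card < (Z.filter (fun z => z < t + ε / 2)).card := by
      apply card_lt_card
      refine ⟨?_, ?_⟩
      · intro z hz
        rw [mem_filter] at *
        exact ⟨hz.1, by linarith [hz.2]⟩
      · intro h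
        have := h (mem_filter.mpr ⟨(hZmem t).mpr h0, by linarith⟩)
        rw [mem_filter] at this
        linarith [this.2]
    omega
  have hsign : ∀ i, (∀ t ∈ interior (I i), q.eval t ≤ 0) ∨ (∀ t ∈ interior (I i), 0 ≤ q.eval t) := by
    intro i
    by_contra hcon
    push Not at hcon
    obtain ⟨⟨s, hs, hs'⟩, t, ht', htt⟩ := hcon
    have hci : (interior (I i)).OrdConnected := (hconv i).interior.ordConnected
    have hsub : Set.uIcc s t ⊆ interior (I i) := hci.uIcc_subset hs ht'
    have h0 : (0 : ℝ) ∈ Set.uIcc (q.eval s) (q.eval t) := by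
      rw [Set.mem_uIcc]
      right
      exact ⟨htt.le, hs'.le⟩
    obtain ⟨z, hz, hz0⟩ := intermediate_value_uIcc (q.continuous.continuousOn) h0
    exact hroot i z (hsub hz) hz0
  have hd2 : ∀ x, deriv^[2] (fun t => p.eval t) x = q.eval x := by
    intro x
    have e1 : deriv (fun t => p.eval t) = fun t => p.derivative.eval t := by
      ext t
      exact p.deriv
    simp only [Function.iterate_succ, Function.iterate_zero, Function.comp_apply, id_eq]
    rw [e1]
    exact p.derivative.deriv
  have hd1 : deriv (fun t => p.eval t) = fun t => p.derivative.eval t := by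
    ext t
    exact p.deriv
  have h := main_graph (m := Z.card + 1) (fun t => p.eval t) S I (by
      intro t _
      refine ⟨⟨(Z.filter (fun z => z < t)).card, ?_⟩, rfl⟩
      exact Nat.lt_succ_of_le (card_le_card (filter_subset _ _))) (by
      intro i
      rcases hsign i with h | h
      · left
        apply concaveOn_of_deriv2_nonpos (hconv i) p.continuous.continuousOn
          p.differentiable.differentiableOn
        · rw [hd1]
          exact p.derivative.differentiable.differentiableOn
        · intro x hx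
          rw [hd2]
          exact h x hx
      · right
        apply convexOn_of_deriv2_nonneg (hconv i) p.continuous.continuousOn
          p.differentiable.differentiableOn
        · rw [hd1]
          exact p.derivative.differentiable.differentiableOn
        · intro x hx
          rw [hd2]
          exact h x hx) hk
  refine h.trans ?_
  apply Nat.mul_le_mul_right
  apply Nat.mul_le_mul_left
  omega

end Pool.Agent.TH290.LV
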