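import Pool.Agent.TH290.LV.Chain

set_option autoImplicit false

/-!
# The complexity of the `k`-level for lines in few families in convex position
-/

open Finset Filter Topology

namespace Pool.Agent.TH290.LV

open scoped Classical in
/-- The level of a point: the number of lines of `Γ` passing strictly below it. -/
noncomputable def level (Γ : Finset (ℝ × ℝ)) (p : ℝ × ℝ) : ℕ :=
  (Γ.filter (fun l => ht l p.1 < p.2)).card

/-- The `k`-level: the closure of the set of points that lie on some line of `Γ` and have level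
exactly `k`. -/
def kLevel (Γ : Finset (ℝ × ℝ)) (k : ℕ) : Set (ℝ × ℝ) :=
  closure {p | (∃ l ∈ Γ, ht l p.1 = p.2) ∧ level Γ p = k}

/-- The vertices of the `k`-level: the points where the chain passes from one line `l` of `Γ`
to another line `m` of `Γ`. -/
def IsVertex (Γ : Finset (ℝ × ℝ)) (k : ℕ) (p : ℝ × ℝ) : Prop :=
  ∃ l ∈ Γ, ∃ m ∈ Γ, l ≠ m ∧ ht l p.1 = p.2 ∧ ht m p.1 = p.2 ∧
    ∃ δ > 0, (∀ x, p.1 - δ < x → x < p.1 → (x, ht l x) ∈ kLevel Γ k) ∧
      (∀ x, p.1 < x → x < p.1 + δ → (x, ht m x) ∈ kLevel Γ k)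

/-- The complexity of the `k`-level: the number of its vertices. -/
noncomputable def complexity (Γ : Finset (ℝ × ℝ)) (k : ℕ) : ℕ := {p | IsVertex Γ k p}.ncard

/-- the abscissae of the crossings -/
noncomputable def XX (Γ : Finset (ℝ × ℝ)) : Finset ℝ :=
  open scoped Classical in
  (Γ ×ˢ Γ).image (fun z => (z.2.2 - z.1.2) / (z.1.1 - z.2.1))

theorem cr_XX (Γ : Finset (ℝ × ℝ)) : Cr Γ (XX Γ) := by
  classical
  intro p hp q hq x hne h
  unfold XX
  rw [mem_image]
  refine ⟨(p, q), mem_product.mpr ⟨hp, hq⟩, ?_⟩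
  have h1 : p.1 - q.1 ≠ 0 := sub_ne_zero.mpr hne
  rw [div_eq_iff h1]
  unfold ht at h
  linarith

theorem closure_rank {Γ : Finset (ℝ × ℝ)} {X : Finset ℝ} (hX : Cr Γ X) {x : ℝ} (hx : x ∉ X)
    {l : ℝ × ℝ} (hl : l ∈ Γ) {k : ℕ} (h : (x, ht l x) ∈ kLevel Γ k) :
    level Γ (x, ht l x) = k := by
  classical
  have hcont : ∀ q : ℝ × ℝ, Continuous (fun p : ℝ × ℝ => ht q p.1) := by
    intro q
    unfold ht
    fun_prop
  have hV : ∀ᶠ p : ℝ × ℝ in 𝓝 (x, ht l x), ∀ q ∈ Γ,
      (ht q x < ht l x → ht q p.1 < ht l p.1 ∧ ht q p.1 < p.2) ∧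
      (ht l x < ht q x → ht l p.1 < ht q p.1 ∧ p.2 < ht q p.1) := by
    rw [Filter.eventually_all_finset]
    intro q _
    rw [Filter.eventually_and]
    constructor
    · by_cases h1 : ht q x < ht l x
      · filter_upwards [(hcont q).continuousAt.eventually_lt (hcont l).continuousAt h1,
          (hcont q).continuousAt.eventually_lt continuous_snd.continuousAt h1] with p h2 h3 _
        exact ⟨h2, h3⟩
      · exact Eventually.of_forall (fun _ h' => absurd h' h1)
    · by_cases h1 : ht l x < ht q x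
      · filter_upwards [(hcont l).continuousAt.eventually_lt (hcont q).continuousAt h1,
          continuous_snd.continuousAt.eventually_lt (hcont q).continuousAt h1] with p h2 h3 _
        exact ⟨h2, h3⟩
      · exact Eventually.of_forall (fun _ h' => absurd h' h1)
  unfold kLevel at h
  rw [mem_closure_iff_nhds] at h
  obtain ⟨p, hpV, ⟨l', hl', hp1⟩, hp2⟩ := h _ hV
  simp only [Set.mem_ofPred_eq] at hpV
  have hll : l' = l := by
    rcases lt_trichotomy (ht l' x) (ht l x) with h1 | h1 | h1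
    · have := ((hpV l' hl').1 h1).2
      linarith
    · by_contra hne
      by_cases hs : l'.1 = l.1
      · exact hne (ht_inj h1 hs)
      · exact hx (hX l' hl' l hl x hs h1)
    · have := ((hpV l' hl').2 h1).2
      linarith
  subst hll
  rw [← hp2]
  unfold level
  congr 1
  apply filter_congr
  intro q hq
  simp only
  rcases lt_trichotomy (ht q x) (ht l' x) with h1 | h1 | h1
  · exact ⟨fun _ => ((hpV q hq).1 h1).2, fun _ => h1⟩
  · have hqe : q = l' := by
      by_contra hne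
      by_cases hs : q.1 = l'.1
      · exact hne (ht_inj h1 hs)
      · exact hx (hX q hq l' hl x hs h1)
    subst hqe
    constructor
    · intro h2
      exact absurd h2 (lt_irrefl _)
    · intro h2
      rw [hp1] at h2
      exact absurd h2 (lt_irrefl _)
  · constructor
    · intro h2
      exact absurd h2 (lt_asymm h1)
    · intro h2
      exact absurd h2 (lt_asymm ((hpV q hq).2 h1).2)

open scoped Classical in
theorem rank_left {Γ : Finset (ℝ × ℝ)} {X : Finset ℝ} (hX : Cr Γ X) {x0 δ : ℝ} (hδ : 0 < δ)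
    {l : ℝ × ℝ} (hl : l ∈ Γ) {k : ℕ}
    (h : ∀ x, x0 - δ < x → x < x0 → (x, ht l x) ∈ kLevel Γ k) :
    (Γ.filter (fun q => km x0 q < km x0 l)).card = k := by
  have hfin : ((X.erase x0 : Finset ℝ) : Set ℝ)ᶜ ∈ 𝓝 x0 :=
    (X.erase x0).finite_toSet.isClosed.isOpen_compl.mem_nhds (by simp)
  obtain ⟨ε, hε, hball⟩ := Metric.mem_nhds_iff.mp hfin
  have hmin : 0 < min δ ε := lt_min hδ hε
  have h1 : min δ ε ≤ δ := min_le_left _ _
  have h2 : min δ ε ≤ ε := min_le_right _ _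
  set x := x0 - min δ ε / 2 with hx
  have hno : ∀ z ∈ X, ¬ (x ≤ z ∧ z < x0) := by
    rintro z hz ⟨h3, h4⟩
    have hzb : z ∈ Metric.ball x0 ε := by
      rw [Metric.mem_ball, Real.dist_eq, abs_lt]
      constructor <;> linarith
    exact hball hzb (by simp [hz, h4.ne])
  have hxX : x ∉ X := fun h' => hno x h' ⟨le_rfl, by linarith⟩
  have hlev := closure_rank hX hxX hl (h x (by linarith) (by linarith))
  rw [← hlev]
  unfold level
  congr 1
  apply filter_congr
  intro q hq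
  simp only
  rw [← keep_iff hX (x := x) (x' := x0) (by linarith) (fun z hz h' => hno z hz ⟨h'.1.le, h'.2⟩)
    hq hl, kp_ht hX hxX hq hl]

open scoped Classical in
theorem rank_right {Γ : Finset (ℝ × ℝ)} {X : Finset ℝ} (hX : Cr Γ X) {x0 δ : ℝ} (hδ : 0 < δ)
    {l : ℝ × ℝ} (hl : l ∈ Γ) {k : ℕ}
    (h : ∀ x, x0 < x → x < x0 + δ → (x, ht l x) ∈ kLevel Γ k) :
    (Γ.filter (fun q => kp x0 q < kp x0 l)).card = k := by
  have hfin : ((X.erase x0 : Finset ℝ) : Set ℝ)ᶜ ∈ 𝓝 x0 :=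
    (X.erase x0).finite_toSet.isClosed.isOpen_compl.mem_nhds (by simp)
  obtain ⟨ε, hε, hball⟩ := Metric.mem_nhds_iff.mp hfin
  have hmin : 0 < min δ ε := lt_min hδ hε
  have h1 : min δ ε ≤ δ := min_le_left _ _
  have h2 : min δ ε ≤ ε := min_le_right _ _
  set x := x0 + min δ ε / 2 with hx
  have hno : ∀ z ∈ X, ¬ (x0 < z ∧ z ≤ x) := by
    rintro z hz ⟨h3, h4⟩
    have hzb : z ∈ Metric.ball x0 ε := by
      rw [Metric.mem_ball, Real.dist_eq, abs_lt]
      constructor <;> linarith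
    exact hball hzb (by simp [hz, h3.ne'])
  have hxX : x ∉ X := fun h' => hno x h' ⟨by linarith, le_rfl⟩
  have hlev := closure_rank hX hxX hl (h x (by linarith) (by linarith))
  rw [← hlev]
  unfold level
  congr 1
  apply filter_congr
  intro q hq
  simp only
  rw [keep_iff hX (x := x0) (x' := x) (by linarith) (fun z hz h' => hno z hz ⟨h'.1, h'.2.le⟩)
    hq hl, km_kp hX hxX hq hl]

open scoped Classical in
theorem rank_unique {Γ : Finset (ℝ × ℝ)} {x : ℝ} {l m : ℝ × ℝ} (hl : l ∈ Γ) (hm : m ∈ Γ)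
    (h : (Γ.filter (fun q => km x q < km x l)).card = (Γ.filter (fun q => km x q < km x m)).card) :
    l = m := by
  have key : ∀ a ∈ Γ, ∀ b ∈ Γ, km x a < km x b →
      (Γ.filter (fun q => km x q < km x a)).card < (Γ.filter (fun q => km x q < km x b)).card := by
    intro a ha b _ hab
    apply card_lt_card
    refine ⟨?_, ?_⟩
    · intro q hq
      rw [mem_filter] at *
      exact ⟨hq.1, hq.2.trans hab⟩
    · intro h'
      have := h' (mem_filter.mpr ⟨ha, hab⟩)
      rw [mem_filter] at this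
      exact lt_irrefl _ this.2
  rcases lt_trichotomy (km x l) (km x m) with h1 | h1 | h1
  · have := key l hl m hm h1
    omega
  · exact km_inj x h1
  · have := key m hm l hl h1
    omega

open scoped Classical in
/-- complexity and changes of the sets of lowest lines -/
theorem complexity_le_evs {Γ : Finset (ℝ × ℝ)} {X : Finset ℝ} (hX : Cr Γ X) (k : ℕ) {y : ℝ}
    (hy : ∀ x ∈ X, x ≤ y) :
    complexity Γ k ≤ (evs Γ X (k + 1) y).card + (evs Γ X k y).card := by
  unfold complexity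
  have hinj : Set.InjOn (fun p : ℝ × ℝ => p.1) {p | IsVertex Γ k p} := by
    rintro p ⟨l, hl, m, hm, hlm, h1, h2, δ, hδ, h3, h4⟩ p' ⟨l', hl', m', hm', hlm', h1', h2', δ',
      hδ', h3', h4'⟩ he
    simp only at he
    have r1 := rank_left hX hδ hl h3
    have r2 := rank_left hX hδ' hl' h3'
    rw [← he] at r2
    have hll := rank_unique hl hl' (r1.trans r2.symm)
    refine Prod.ext he ?_
    rw [← h1, ← h1', hll, he]
  have hsub : (fun p : ℝ × ℝ => p.1) '' {p | IsVertex Γ k p} ⊆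
      ((evs Γ X (k + 1) y ∪ evs Γ X k y : Finset ℝ) : Set ℝ) := by
    rintro x0 ⟨p, ⟨l, hl, m, hm, hlm, h1, h2, δ, hδ, h3, h4⟩, rfl⟩
    simp only
    have hs : l.1 ≠ m.1 := fun h => hlm (ht_inj (h1.trans h2.symm) h)
    have hpX : p.1 ∈ X := hX l hl m hm p.1 hs (h1.trans h2.symm)
    have r1 := rank_left hX hδ hl h3
    have r2 := rank_right hX hδ hm h4
    by_contra hcon
    rw [mem_coe, mem_union, not_or] at hcon
    unfold evs at hcon
    rw [mem_filter, mem_filter] at hcon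
    have e1 : Sm Γ (k + 1) p.1 = Sp Γ (k + 1) p.1 := by
      by_contra hne
      exact hcon.1 ⟨hpX, hy _ hpX, hne⟩
    have e2 : Sm Γ k p.1 = Sp Γ k p.1 := by
      by_contra hne
      exact hcon.2 ⟨hpX, hy _ hpX, hne⟩
    have m1 : m ∈ Sp Γ (k + 1) p.1 := by
      unfold Sp
      rw [mem_filter]
      exact ⟨hm, by omega⟩
    have m2 : m ∉ Sp Γ k p.1 := by
      unfold Sp
      rw [mem_filter]
      rintro ⟨_, h⟩
      omega
    rw [← e1] at m1
    rw [← e2] at m2
    unfold Sm at m1 m2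
    rw [mem_filter] at m1 m2
    apply hlm
    apply rank_unique hl hm (x := p.1)
    rw [r1]
    by_contra hne
    apply m2
    refine ⟨hm, ?_⟩
    omega
  calc {p | IsVertex Γ k p}.ncard = ((fun p : ℝ × ℝ => p.1) '' {p | IsVertex Γ k p}).ncard :=
        hinj.ncard_image.symm
    _ ≤ ((evs Γ X (k + 1) y ∪ evs Γ X k y : Finset ℝ) : Set ℝ).ncard :=
        Set.ncard_le_ncard hsub (Finset.finite_toSet _)
    _ = (evs Γ X (k + 1) y ∪ evs Γ X k y).card := Set.ncard_coe_finset _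
    _ ≤ _ := card_union_le _ _

section families

variable {ι κ : Type*} [Fintype ι] [Fintype κ]

open scoped Classical in
theorem card_filter_le {T : Finset (ℝ × ℝ)} {F : ι → Finset (ℝ × ℝ)} {C : ℝ × ℝ → Prop}
    [DecidablePred C] (h2 : ∀ i, (T ∩ F i).card ≤ 2) (hC : ∀ l ∈ T, C l → ∃ i, l ∈ F i) :
    (T.filter C).card ≤ 2 * Fintype.card ι := by
  have hsub : T.filter C ⊆ univ.biUnion (fun i => T ∩ F i) := by
    intro l hl
    rw [mem_filter] at hl
    obtain ⟨i, hi⟩ := hC l hl.1 hl.2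
    rw [mem_biUnion]
    exact ⟨i, mem_univ _, mem_inter.mpr ⟨hl.1, hi⟩⟩
  calc (T.filter C).card ≤ (univ.biUnion (fun i => T ∩ F i)).card := card_le_card hsub
    _ ≤ ∑ i, (T ∩ F i).card := card_biUnion_le
    _ ≤ ∑ _i : ι, 2 := sum_le_sum (fun i _ => h2 i)
    _ = 2 * Fintype.card ι := by
        rw [sum_const, card_univ, smul_eq_mul, mul_comm]

open scoped Classical in
theorem evs_mixed {Γ : Finset (ℝ × ℝ)} {X : Finset ℝ} (hX : Cr Γ X)
    (A : ι → Finset (ℝ × ℝ)) (B : κ → Finset (ℝ × ℝ)) (hA : ∀ i, OnUpper (A i))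
    (hB : ∀ i, OnLower (B i)) (hΓ : ∀ l ∈ Γ, (∃ i, l ∈ A i) ∨ ∃ i, l ∈ B i) {j : ℕ}
    (hj : j ≤ Γ.card) (y : ℝ) :
    (evs Γ X j y).card ≤ 4 * Fintype.card ι * j + 2 * Fintype.card κ * (Γ.card - j) := by
  obtain ⟨C, hC⟩ : ∃ C : ℝ × ℝ → Prop, ∀ l, C l ↔ ∃ i, l ∈ A i := ⟨_, fun l => Iff.rfl⟩
  obtain ⟨S⟩ := exists_St hX C (j := j) (n' := Γ.card - j) (by omega) y
  refine S.c2.trans ?_
  have h1 : ∀ i, ((S.T i).filter C).card ≤ 2 * Fintype.card ι := fun i =>
    card_filter_le (fun i' => card_two (S.Tinv i).env (hA i')) (fun l _ h => (hC l).mp h)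
  have h2 : ∀ i, (((S.T i).erase (S.σ i)).filter C).card ≤
      2 * Fintype.card ι := fun i =>
    (card_le_card (filter_subset_filter _ (erase_subset _ _))).trans (h1 i)
  have h3 : ∀ i, ((S.U i).filter (fun l => ¬ C l)).card ≤ 2 * Fintype.card κ := fun i =>
    card_filter_le (fun i' => card_two' (S.Uinv i).env (hB i'))
      (fun l hl h => (hΓ l (S.Usub i hl)).resolve_left (fun h' => h ((hC l).mpr h')))
  calc _ ≤ ∑ _i : Fin j, (2 * Fintype.card ι + 2 * Fintype.card ι) +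
        ∑ _i : Fin (Γ.card - j), 2 * Fintype.card κ :=
        Nat.add_le_add (sum_le_sum (fun i _ => Nat.add_le_add (h1 i) (h2 i)))
          (sum_le_sum (fun i _ => h3 i))
    _ = _ := by
        simp only [sum_const, card_univ, Fintype.card_fin, smul_eq_mul]
        ring

open scoped Classical in
theorem evs_upper {Γ : Finset (ℝ × ℝ)} {X : Finset ℝ} (hX : Cr Γ X)
    (A : ι → Finset (ℝ × ℝ)) (hA : ∀ i, OnUpper (A i))
    (hΓ : ∀ l ∈ Γ, ∃ i, l ∈ A i) {j : ℕ} (hj : j ≤ Γ.card) (y : ℝ) :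
    (evs Γ X j y).card + j ≤ 2 * Fintype.card ι * j := by
  obtain ⟨S⟩ := exists_St hX (fun l => ∃ i, l ∈ A i) (j := j) (n' := Γ.card - j) (by omega) y
  refine S.c1.trans ?_
  have h1 : ∀ i, (S.T i).card ≤ 2 * Fintype.card ι := by
    intro i
    have := card_filter_le (T := S.T i) (F := A) (C := fun _ => True)
      (fun i' => card_two (S.Tinv i).env (hA i')) (fun l hl _ => hΓ l (S.Tsub i hl))
    simpa using this
  calc _ ≤ ∑ _i : Fin j, 2 * Fintype.card ι := sum_le_sum (fun i _ => h1 i)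
    _ = _ := by
        simp only [sum_const, card_univ, Fintype.card_fin, smul_eq_mul]
        ring

open scoped Classical in
theorem evs_lower {Γ : Finset (ℝ × ℝ)} {X : Finset ℝ} (hX : Cr Γ X)
    (B : κ → Finset (ℝ × ℝ)) (hB : ∀ i, OnLower (B i))
    (hΓ : ∀ l ∈ Γ, ∃ i, l ∈ B i) {j : ℕ} (hj : j ≤ Γ.card) (y : ℝ) :
    (evs Γ X j y).card + (Γ.card - j) ≤ 2 * Fintype.card κ * (Γ.card - j) := by
  obtain ⟨S⟩ := exists_St hX (fun l => ∃ i, l ∈ B i) (j := j) (n' := Γ.card - j) (by omega) y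
  refine S.c3.trans ?_
  have h1 : ∀ i, (S.U i).card ≤ 2 * Fintype.card κ := by
    intro i
    have := card_filter_le (T := S.U i) (F := B) (C := fun _ => True)
      (fun i' => card_two' (S.Uinv i).env (hB i')) (fun l hl _ => hΓ l (S.Usub i hl))
    simpa using this
  calc _ ≤ ∑ _i : Fin (Γ.card - j), 2 * Fintype.card κ := sum_le_sum (fun i _ => h1 i)
    _ = _ := by
        simp only [sum_const, card_univ, Fintype.card_fin, smul_eq_mul]
        ring

theorem exists_y (X : Finset ℝ) : ∃ y, ∀ x ∈ X, x ≤ y := by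
  obtain ⟨y, hy⟩ := X.finite_toSet.bddAbove
  exact ⟨y, fun x hx => hy (mem_coe.mpr hx)⟩

/-- mixed families -/
theorem main_mixed {Γ : Finset (ℝ × ℝ)} (A : ι → Finset (ℝ × ℝ)) (B : κ → Finset (ℝ × ℝ))
    (hA : ∀ i, OnUpper (A i)) (hB : ∀ i, OnLower (B i))
    (hΓ : ∀ l ∈ Γ, (∃ i, l ∈ A i) ∨ ∃ i, l ∈ B i) {k : ℕ} (hk : k < Γ.card) :
    complexity Γ k ≤ 4 * Fintype.card ι * (2 * k + 1) +
      2 * Fintype.card κ * (2 * (Γ.card - k) - 1) := by
  obtain ⟨y, hy⟩ := exists_y (XX Γ)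
  refine (complexity_le_evs (cr_XX Γ) k hy).trans ?_
  have h1 := evs_mixed (cr_XX Γ) A B hA hB hΓ (j := k + 1) (by omega) y
  have h2 := evs_mixed (cr_XX Γ) A B hA hB hΓ (j := k) (by omega) y
  refine (Nat.add_le_add h1 h2).trans (le_of_eq ?_)
  obtain ⟨r, hr⟩ : ∃ r, Γ.card = k + 1 + r := ⟨Γ.card - (k + 1), by omega⟩
  rw [hr]
  have e1 : k + 1 + r - (k + 1) = r := by omega
  have e2 : k + 1 + r - k = r + 1 := by omega
  rw [e1, e2]
  have e3 : 2 * (r + 1) - 1 = 2 * r + 1 := by omega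
  rw [e3]
  ring

/-- upper families only -/
theorem main_upper {Γ : Finset (ℝ × ℝ)} (A : ι → Finset (ℝ × ℝ)) (hA : ∀ i, OnUpper (A i))
    (hΓ : ∀ l ∈ Γ, ∃ i, l ∈ A i) {k : ℕ} (hk : k < Γ.card) :
    complexity Γ k ≤ (2 * Fintype.card ι - 1) * (2 * k + 1) := by
  obtain ⟨y, hy⟩ := exists_y (XX Γ)
  refine (complexity_le_evs (cr_XX Γ) k hy).trans ?_
  have h1 := evs_upper (cr_XX Γ) A hA hΓ (j := k + 1) (by omega) y
  have h2 := evs_upper (cr_XX Γ) A hA hΓ (j := k) (by omega) y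
  rw [Nat.sub_mul, one_mul]
  have : 2 * Fintype.card ι * (2 * k + 1) =
      2 * Fintype.card ι * (k + 1) + 2 * Fintype.card ι * k := by ring
  rw [this]
  omega

/-- lower families only -/
theorem main_lower {Γ : Finset (ℝ × ℝ)} (B : κ → Finset (ℝ × ℝ)) (hB : ∀ i, OnLower (B i))
    (hΓ : ∀ l ∈ Γ, ∃ i, l ∈ B i) {k : ℕ} (hk : k < Γ.card) :
    complexity Γ k ≤ (2 * Fintype.card κ - 1) * (2 * (Γ.card - k) - 1) := by
  obtain ⟨y, hy⟩ := exists_y (XX Γ)
  refine (complexity_le_evs (cr_XX Γ) k hy).trans ?_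
  have h1 := evs_lower (cr_XX Γ) B hB hΓ (j := k + 1) (by omega) y
  have h2 := evs_lower (cr_XX Γ) B hB hΓ (j := k) (by omega) y
  obtain ⟨r, hr⟩ : ∃ r, Γ.card = k + 1 + r := ⟨Γ.card - (k + 1), by omega⟩
  rw [hr] at h1 h2 ⊢
  have e1 : k + 1 + r - (k + 1) = r := by omega
  have e2 : k + 1 + r - k = r + 1 := by omega
  rw [e1] at h1
  rw [e2] at h2 ⊢
  have e3 : 2 * (r + 1) - 1 = 2 * r + 1 := by omega
  rw [e3, Nat.sub_mul, one_mul]
  have : 2 * Fintype.card κ * (2 * r + 1) =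
      2 * Fintype.card κ * (r + 1) + 2 * Fintype.card κ * r := by ring
  rw [this]
  omega

end families

end Pool.Agent.TH290.LV
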